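import Pool.Agent.BallPart.Main

namespace Pool.Agent.Results.MP_bdabc0_co.NotOptimal

open Pool.Agent.BallPart

/-- `BP(d, C; w)` is feasible: the multiset with `d` copies of each `w i` is the disjoint union of
multisets `B i` of size exactly `d` with sum at most `C i`. -/
def Feasible {n : ℕ} (d : ℕ) (C : Fin n → ℤ) (w : Fin n → ℕ) : Prop :=
  ∃ B : Fin n → Multiset ℕ, (∑ i, B i = ∑ i, Multiset.replicate d (w i)) ∧
    ∀ i, (B i).card = d ∧ ((B i).sum : ℤ) ≤ C i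

/-- The conjugate of `l`: its `j`-th entry (`1 ≤ j ≤ max l`) is the number of entries `≥ j`. -/
def conj (l : List ℕ) : List ℕ :=
  (List.range (l.foldr max 0)).map fun j => (l.filter fun x => j < x).length

/-- The list of the pairs `(h_t, a_t)`, `1 ≤ t ≤ k`: the maximal blocks of equal entries of the
conjugate after its entries equal to the length `r` of `l` have been removed. -/
def blocks (l : List ℕ) : List (ℕ × ℕ) :=
  (((conj l).filter fun h => h ≠ l.length).splitBy (· == ·)).map fun s => (s.headD 0, s.length)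

/-- `∑_{t=1}^k (h_{t-1} - h_t)(a_t - 1) + (h_k - 1)(a_k - 1)` for `h_0 = h0` and the list of the
pairs `(h_t, a_t)`, and `0` if `k = 0`. -/
def bSum : ℕ → List (ℕ × ℕ) → ℕ
  | _, [] => 0
  | h0, [(h, a)] => (h0 - h) * (a - 1) + (h - 1) * (a - 1)
  | h0, (h, a) :: p :: l => (h0 - h) * (a - 1) + bSum h (p :: l)

/-- `b(λ)`. -/
def b (l : List ℕ) : ℕ := bSum l.length (blocks l)

/-- `b_i = b(w_i, …, w_n)`. -/
def bi {n : ℕ} (w : Fin n → ℕ) (i : Fin n) : ℤ := b ((List.ofFn w).drop i)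

/-- The inequalities `C_i + ⋯ + C_n ≥ d (w_i + ⋯ + w_n) + c_i`; for `c = bi w` this is (S). -/
def Cond {n : ℕ} (w : Fin n → ℕ) (c : Fin n → ℤ) (d : ℕ) (C : Fin n → ℤ) : Prop :=
  ∀ i, (d : ℤ) * (∑ j ∈ Finset.Ici i, (w j : ℤ)) + c i ≤ ∑ j ∈ Finset.Ici i, C j

/-- The relaxation of (S) by `c` is strict for this `d`. -/
def Strict {n : ℕ} (w : Fin n → ℕ) (c : Fin n → ℤ) (d : ℕ) : Prop :=
  {C : Fin n → ℤ | Antitone C ∧ Cond w (bi w) d C} ⊂ {C : Fin n → ℤ | Antitone C ∧ Cond w c d C}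

/-- The statement of Q1. -/
def Optimality : Prop :=
  ∀ (n : ℕ) (w : Fin n → ℕ), 1 ≤ n → Antitone w → ∀ c : Fin n → ℤ, (∀ i, c i ≤ bi w i) →
    ∃ d0 : ℕ, ∀ d ≥ d0, Strict w c d →
      ∃ C : Fin n → ℤ, Antitone C ∧ Cond w c d C ∧ ¬ Feasible d C w

theorem feasible_of_fz {d : ℕ} {C : Fin 5 → ℤ} (h : Fz d C) :
    Feasible d C ![7, 6, 4, 4, 0] := by
  obtain ⟨x, y, z, t, h1, h2, h3, h4, h5, h6⟩ := h
  refine ⟨fun i => Multiset.replicate (x i) 7 + Multiset.replicate (y i) 6 +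
    Multiset.replicate (z i) 4 + Multiset.replicate (t i) 0, ?_, ?_⟩
  · rw [Fin.sum_univ_five] at h2 h3 h4 h5
    have e : ∑ i, Multiset.replicate d ((![7, 6, 4, 4, 0] : Fin 5 → ℕ) i) =
        Multiset.replicate d 7 + Multiset.replicate d 6 + Multiset.replicate (2 * d) 4 +
          Multiset.replicate d 0 := by
      rw [Fin.sum_univ_five]
      simp only [Matrix.cons_val]
      rw [two_mul, Multiset.replicate_add]
      abel
    rw [e]
    conv_rhs => rw [← h4]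
    nth_rewrite 1 [← h2]
    nth_rewrite 1 [← h3]
    nth_rewrite 1 [← h5]
    rw [Fin.sum_univ_five]
    simp only [Multiset.replicate_add]
    abel
  · intro i
    constructor
    · simp only [Multiset.card_add, Multiset.card_replicate]
      exact h1 i
    · have := h6 i
      simp only [Multiset.sum_add, Multiset.sum_replicate, smul_eq_mul, mul_zero, add_zero]
      push_cast
      linarith

theorem Ici0 : (Finset.Ici (0 : Fin 5)) = {0, 1, 2, 3, 4} := by decide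
theorem Ici1 : (Finset.Ici (1 : Fin 5)) = {1, 2, 3, 4} := by decide
theorem Ici2 : (Finset.Ici (2 : Fin 5)) = {2, 3, 4} := by decide
theorem Ici3 : (Finset.Ici (3 : Fin 5)) = {3, 4} := by decide
theorem Ici4 : (Finset.Ici (4 : Fin 5)) = {4} := by decide

/-- The values `b_1, …, b_5` for the weights `7, 6, 4, 4, 0`. -/
theorem bi_eq : bi ![7, 6, 4, 4, 0] = ![5, 5, 6, 3, 0] := by
  funext i
  fin_cases i <;> decide +kernel

theorem cond_iff (c C : Fin 5 → ℤ) (d : ℕ) : Cond ![7, 6, 4, 4, 0] c d C ↔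
    (21 * (d : ℤ) + c 0 ≤ C 0 + C 1 + C 2 + C 3 + C 4) ∧ (14 * (d : ℤ) + c 1 ≤
      C 1 + C 2 + C 3 + C 4) ∧ (8 * (d : ℤ) + c 2 ≤ C 2 + C 3 + C 4) ∧
      (4 * (d : ℤ) + c 3 ≤ C 3 + C 4) ∧ c 4 ≤ C 4 := by
  unfold Cond
  constructor
  · intro h
    have a0 := h 0
    have a1 := h 1
    have a2 := h 2
    have a3 := h 3
    have a4 := h 4
    rw [Ici0, sum_mem, sum_mem] at a0
    rw [Ici1, sum_mem, sum_mem] at a1
    rw [Ici2, sum_mem, sum_mem] at a2
    rw [Ici3, sum_mem, sum_mem] at a3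
    rw [Ici4, sum_mem, sum_mem] at a4
    simp at a0 a1 a2 a3 a4
    refine ⟨?_, ?_, ?_, ?_, ?_⟩ <;> linarith
  · rintro ⟨h0, h1, h2, h3, h4⟩ i
    fin_cases i
    · show _ * (∑ j ∈ Finset.Ici (0 : Fin 5), _) + _ ≤ ∑ j ∈ Finset.Ici (0 : Fin 5), C j
      rw [Ici0, sum_mem, sum_mem]
      simp
      linarith
    · show _ * (∑ j ∈ Finset.Ici (1 : Fin 5), _) + _ ≤ ∑ j ∈ Finset.Ici (1 : Fin 5), C j
      rw [Ici1, sum_mem, sum_mem]
      simp
      linarith
    · show _ * (∑ j ∈ Finset.Ici (2 : Fin 5), _) + _ ≤ ∑ j ∈ Finset.Ici (2 : Fin 5), C j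
      rw [Ici2, sum_mem, sum_mem]
      simp
      linarith
    · show _ * (∑ j ∈ Finset.Ici (3 : Fin 5), _) + _ ≤ ∑ j ∈ Finset.Ici (3 : Fin 5), C j
      rw [Ici3, sum_mem, sum_mem]
      simp
      linarith
    · show _ * (∑ j ∈ Finset.Ici (4 : Fin 5), _) + _ ≤ ∑ j ∈ Finset.Ici (4 : Fin 5), C j
      rw [Ici4, sum_mem, sum_mem]
      simp
      linarith

theorem antitone_five (C : Fin 5 → ℤ) (h0 : C 1 ≤ C 0) (h1 : C 2 ≤ C 1) (h2 : C 3 ≤ C 2)
    (h3 : C 4 ≤ C 3) : Antitone C := by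
  rw [Fin.antitone_iff_succ_le]
  intro i
  fin_cases i
  · exact h0
  · exact h1
  · exact h2
  · exact h3

theorem feasible_all (d : ℕ) (hd : 4 ≤ d) (C : Fin 5 → ℤ) (hC : Antitone C)
    (h : Cond ![7, 6, 4, 4, 0] ![4, 5, 6, 3, 0] d C) : Feasible d C ![7, 6, 4, 4, 0] := by
  rw [cond_iff] at h
  simp only [Matrix.cons_val] at h
  obtain ⟨h0, h1, h2, h3, h4⟩ := h
  apply feasible_of_fz
  obtain ⟨n, rfl⟩ : ∃ n, d = n + 4 := ⟨d - 4, by omega⟩
  apply all_fz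
  apply reg_of_tail (by positivity)
  exact ⟨hC (by decide), hC (by decide), hC (by decide), hC (by decide), h4, h3, h2, h1, h0⟩

theorem strict_all (d : ℕ) (hd : 4 ≤ d) : Strict ![7, 6, 4, 4, 0] ![4, 5, 6, 3, 0] d := by
  have hd' : (4 : ℤ) ≤ d := by exact_mod_cast hd
  unfold Strict
  rw [bi_eq, Set.ssubset_iff_exists]
  constructor
  · rintro C ⟨h1, h2⟩
    refine ⟨h1, ?_⟩
    rw [cond_iff] at h2 ⊢
    simp only [Matrix.cons_val] at h2 ⊢
    refine ⟨?_, h2.2.1, h2.2.2.1, h2.2.2.2.1, h2.2.2.2.2⟩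
    linarith [h2.1]
  · refine ⟨![7 * (d : ℤ) - 2, 6 * d, 4 * d + 3, 4 * d, 3], ⟨?_, ?_⟩, ?_⟩
    · apply antitone_five <;> simp only [Matrix.cons_val] <;> linarith
    · rw [cond_iff]
      simp only [Matrix.cons_val]
      refine ⟨?_, ?_, ?_, ?_, ?_⟩ <;> linarith
    · rintro ⟨-, h⟩
      rw [cond_iff] at h
      simp only [Matrix.cons_val] at h
      linarith [h.1]

/-- The constants `b_i` of (S) are not optimal: for the weights `7, 6, 4, 4, 0`, where
`(b_1, …, b_5) = (5, 5, 6, 3, 0)`, one may replace `b_1 = 5` by `4` for every `d ≥ 4`. -/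
theorem result :
    (∀ d : ℕ, 4 ≤ d → Strict ![7, 6, 4, 4, 0] ![4, 5, 6, 3, 0] d ∧
      ∀ C : Fin 5 → ℤ, Antitone C → Cond ![7, 6, 4, 4, 0] ![4, 5, 6, 3, 0] d C →
        Feasible d C ![7, 6, 4, 4, 0]) ∧
    ¬ Optimality := by
  refine ⟨fun d hd => ⟨strict_all d hd, feasible_all d hd⟩, ?_⟩
  intro h
  obtain ⟨d0, h1⟩ := h 5 ![7, 6, 4, 4, 0] (by norm_num) (by
      intro a b hab
      fin_cases a <;> fin_cases b <;> simp at hab ⊢) ![4, 5, 6, 3, 0] (by
      intro i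
      rw [bi_eq]
      fin_cases i <;> simp)
  obtain ⟨C, c1, c2, c3⟩ := h1 (max d0 4) (le_max_left _ _) (strict_all _ (le_max_right _ _))
  exact c3 (feasible_all _ (le_max_right _ _) C c1 c2)

end Pool.Agent.Results.MP_bdabc0_co.NotOptimal
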